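import Pool.Agent.Helper81.SymMain

/-!
Q1 of MP_9c9736_lc: any-dimensional non-negativity of symmetric functions is undecidable.
-/

namespace Pool.Agent.Results.MP_9c9736_lc.NonnegUndecidable

open Pool.Agent.Helper81.Sym

/-- No partial recursive function `D` halts with the correct answer to
is `f` any-dimensional non-negative? on all homogeneous even instances. -/
theorem result :
    ¬ ∃ D : Instance →. Bool, Partrec D ∧
      ∀ c : Instance, IsHomogeneousSym (toPoly c) → IsEvenSym (toPoly c) →
        ∃ b ∈ D c, (b = true ↔ AnyDimNonneg (toPoly c)) := by
  rintro ⟨D, hD, h⟩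
  obtain ⟨F, hF, hhom, heven, hzero, hneg, hpos⟩ :=
    reduction Pool.Agent.Helper81.halting_rePred
  -- composing gives a total computable decision procedure for the halting problem
  have h1 : ∀ n, ∃ b ∈ D (F n), (b = true ↔ AnyDimNonneg (toPoly (F n))) := fun n =>
    h (F n) (hhom n) (heven n)
  choose b hb hb' using h1
  have hcomp : Computable b := by
    have : Partrec fun n => D (F n) := hD.comp hF
    exact this.of_eq fun n => Part.eq_some_iff.2 (hb n)
  have key : ∀ n, b n = false ↔ (Nat.Partrec.Code.eval
      (Encodable.decode (α := Nat.Partrec.Code) n |>.getD Nat.Partrec.Code.zero) 0).Dom := by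
    intro n
    constructor
    · intro hf
      by_contra hn
      have : AnyDimNonneg (toPoly (F n)) := by
        intro N x
        rcases eq_or_ne x 0 with rfl | hx
        · exact (hzero n N).ge
        · exact (hpos n hn N x hx).le
      rw [(hb' n).2 this] at hf
      exact Bool.noConfusion hf
    · intro hn
      obtain ⟨N, x, _, hx⟩ := hneg n hn
      by_contra hf
      have h2 : b n = true := by cases hh : b n with
        | false => exact absurd hh hf
        | true => rfl
      exact absurd ((hb' n).1 h2 N x) (not_le.2 hx)
  apply ComputablePred.halting_problem 0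
  refine ComputablePred.computable_iff.2 ⟨fun c => !(b (Encodable.encode c)), ?_, ?_⟩
  · exact Primrec.not.to_comp.comp (hcomp.comp Computable.encode)
  · funext c
    have := key (Encodable.encode c)
    simp only [Encodable.encodek, Option.getD_some] at this
    simp only [Bool.not_eq_true', eq_iff_iff]
    exact this.symm

end Pool.Agent.Results.MP_9c9736_lc.NonnegUndecidable
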